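import Pool.Agent.Q75.ND.Base

/-!
Project ND (helper46), job SB: residue classes modulo a maximal ideal in the box.
-/

set_option autoImplicit false

open MvPolynomial NumberField
open scoped Classical

namespace Pool.Agent.Q75.ND

open Pool.Agent.Q46.ND

variable {K ι : Type} [Field K] [NumberField K] [Fintype ι]

/-- Each class modulo an ideal containing `p` has a representative with coordinates in `[0, p)`. -/
theorem exists_rep (ω : Module.Basis ι ℤ (𝓞 K)) {𝔭 : Ideal (𝓞 K)} {p : ℕ} (hp : p.Prime)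
    (hpm : (p : 𝓞 K) ∈ 𝔭) {H : ℕ} (hpH : p ≤ H) (x : 𝓞 K) :
    ∃ t ∈ box ω H, t - x ∈ 𝔭 := by
  have hp0 : (p : ℤ) ≠ 0 := by exact_mod_cast hp.ne_zero
  have hppos : (0 : ℤ) < p := by exact_mod_cast hp.pos
  refine ⟨∑ i, (ω.repr x i % (p : ℤ)) • ω i, ?_, ?_⟩
  · rw [mem_box]
    intro i
    rw [Module.Basis.repr_sum_self]
    have h1 := Int.emod_nonneg (ω.repr x i) hp0
    have h2 := Int.emod_lt_of_pos (ω.repr x i) hppos
    rw [abs_of_nonneg h1]
    have h3 : (p : ℤ) ≤ H := by exact_mod_cast hpH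
    linarith
  · have h1 : (∑ i, (ω.repr x i % (p : ℤ)) • ω i) - x =
        ∑ i, (-(ω.repr x i / (p : ℤ))) • ((p : 𝓞 K) * ω i) := by
      conv_lhs => rw [← ω.sum_repr x]
      rw [← Finset.sum_sub_distrib]
      refine Finset.sum_congr rfl fun i _ => ?_
      rw [ω.sum_repr x, ← sub_smul]
      have h2 : ω.repr x i % (p : ℤ) - ω.repr x i = -(ω.repr x i / (p : ℤ)) * p := by
        have := Int.emod_add_mul_ediv (ω.repr x i) (p : ℤ)
        linarith
      rw [h2, mul_smul]
      congr 1
      rw [zsmul_eq_mul]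
      push_cast
      rfl
    rw [h1]
    refine 𝔭.sum_mem fun i _ => ?_
    rw [zsmul_eq_mul]
    exact 𝔭.mul_mem_left _ (𝔭.mul_mem_right _ hpm)

theorem t_SB : P_SB := by
  intro K ι _ _ _ ω
  refine ⟨2 ^ (Fintype.card ι + 1), fun 𝔭 h𝔭 p hp hpm H hH z => ⟨fun hpH => ?_, fun hHp => ?_⟩⟩
  · -- small primes
    choose t ht htx using fun x : 𝓞 K => exists_rep ω hp hpm hpH x
    have hmk : ∀ q : 𝓞 K ⧸ 𝔭, Ideal.Quotient.mk 𝔭 (t (Quotient.out q)) = q := by
      intro q
      have h1 : Ideal.Quotient.mk 𝔭 (t (Quotient.out q)) = Ideal.Quotient.mk 𝔭 (Quotient.out q) :=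
        Ideal.Quotient.eq.mpr (htx _)
      rw [h1]
      exact Quotient.out_eq q
    have hinj : Function.Injective (fun x : ((box ω H).filter fun g => g - z ∈ 𝔭) × (𝓞 K ⧸ 𝔭) =>
        (⟨x.1.1 + t (Quotient.out x.2), add_mem_box ω (Finset.mem_filter.mp x.1.2).1 (ht _)⟩ :
          box ω (2 * H))) := by
      rintro ⟨⟨g, hg⟩, q⟩ ⟨⟨g', hg'⟩, q'⟩ h
      simp only [Subtype.mk.injEq] at h
      have h2 : q = q' := by
        rw [← hmk q, ← hmk q', Ideal.Quotient.eq]
        have h3 : t (Quotient.out q) - t (Quotient.out q') = (g' - z) - (g - z) := by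
          linear_combination h
        rw [h3]
        exact 𝔭.sub_mem (Finset.mem_filter.mp hg').2 (Finset.mem_filter.mp hg).2
      subst h2
      have h3 : g = g' := by linear_combination h
      subst h3
      rfl
    have hcard := Nat.card_le_card_of_injective _ hinj
    rw [Nat.card_prod] at hcard
    have e1 : Nat.card ((box ω H).filter fun g => g - z ∈ 𝔭) =
        ((box ω H).filter fun g => g - z ∈ 𝔭).card := by
      rw [Nat.card_eq_fintype_card, Fintype.card_coe]
    have e2 : Nat.card (box ω (2 * H)) = (box ω (2 * H)).card := by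
      rw [Nat.card_eq_fintype_card, Fintype.card_coe]
    have e3 : Ideal.absNorm 𝔭 = Nat.card (𝓞 K ⧸ 𝔭) := by
      rw [Ideal.absNorm_apply, Submodule.cardQuot_apply]
    rw [e3]
    calc ((box ω H).filter fun g => g - z ∈ 𝔭).card * Nat.card (𝓞 K ⧸ 𝔭)
        ≤ (box ω (2 * H)).card := by rw [← e1, ← e2]; exact hcard
      _ ≤ 2 ^ Fintype.card ι * (2 * H + 1) ^ Fintype.card ι := card_box_two_mul ω H
      _ ≤ 2 ^ (Fintype.card ι + 1) * (2 * H + 1) ^ Fintype.card ι := by
          gcongr
          · norm_num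
          · omega
  · -- large primes
    have hne : 𝔭 ≠ ⊤ := h𝔭.ne_top
    have hi : ∃ i, ω i ∉ 𝔭 := by
      by_contra hcon
      push Not at hcon
      apply hne
      rw [Ideal.eq_top_iff_one, ← ω.sum_repr 1]
      refine 𝔭.sum_mem fun i _ => ?_
      rw [zsmul_eq_mul]
      exact 𝔭.mul_mem_left _ (hcon i)
    obtain ⟨i, hi⟩ := hi
    have hmem : ∀ k : Fin (H + 1), ((k : ℕ) : 𝓞 K) * ω i ∈ box ω H := by
      intro k
      rw [mem_box]
      intro j
      have h1 : ((k : ℕ) : 𝓞 K) * ω i = ((k : ℕ) : ℤ) • ω i := by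
        rw [zsmul_eq_mul]; push_cast; rfl
      rw [h1, map_zsmul, Finsupp.smul_apply, Module.Basis.repr_self]
      have hk : ((k : ℕ) : ℤ) ≤ H := by exact_mod_cast (Nat.lt_succ_iff.mp k.2)
      by_cases hij : i = j
      · subst hij
        rw [Finsupp.single_eq_same, smul_eq_mul, mul_one, abs_of_nonneg (by positivity)]
        exact hk
      · rw [Finsupp.single_eq_of_ne (Ne.symm hij), smul_zero, abs_zero]
        positivity
    have hinj : Function.Injective (fun x : ((box ω H).filter fun g => g - z ∈ 𝔭) × Fin (H + 1) =>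
        (⟨x.1.1 + ((x.2 : ℕ) : 𝓞 K) * ω i,
          add_mem_box ω (Finset.mem_filter.mp x.1.2).1 (hmem _)⟩ : box ω (2 * H))) := by
      rintro ⟨⟨g, hg⟩, k⟩ ⟨⟨g', hg'⟩, k'⟩ h
      simp only [Subtype.mk.injEq] at h
      have h2 : k = k' := by
        have h3 : ((((k : ℕ) : ℤ) - ((k' : ℕ) : ℤ) : ℤ) : 𝓞 K) * ω i = (g' - z) - (g - z) := by
          push_cast
          linear_combination h
        have h4 : ((((k : ℕ) : ℤ) - ((k' : ℕ) : ℤ) : ℤ) : 𝓞 K) * ω i ∈ 𝔭 := by
          rw [h3]
          exact 𝔭.sub_mem (Finset.mem_filter.mp hg').2 (Finset.mem_filter.mp hg).2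
        rcases h𝔭.isPrime.mem_or_mem h4 with h5 | h5
        · have h6 := dvd_of_mem hne hp hpm h5
          have hk := k.2
          have hk' := k'.2
          have h7 : ((k : ℕ) : ℤ) - ((k' : ℕ) : ℤ) = 0 := by
            apply Int.eq_zero_of_abs_lt_dvd h6
            rw [abs_lt]
            constructor <;> omega
          apply Fin.ext
          omega
        · exact absurd h5 hi
      subst h2
      have h3 : g = g' := by linear_combination h
      subst h3
      rfl
    have hcard := Nat.card_le_card_of_injective _ hinj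
    rw [Nat.card_prod] at hcard
    have e1 : Nat.card ((box ω H).filter fun g => g - z ∈ 𝔭) =
        ((box ω H).filter fun g => g - z ∈ 𝔭).card := by
      rw [Nat.card_eq_fintype_card, Fintype.card_coe]
    have e2 : Nat.card (box ω (2 * H)) = (box ω (2 * H)).card := by
      rw [Nat.card_eq_fintype_card, Fintype.card_coe]
    rw [e1, e2, Nat.card_eq_fintype_card, Fintype.card_fin] at hcard
    calc ((box ω H).filter fun g => g - z ∈ 𝔭).card * (2 * H + 1)
        ≤ ((box ω H).filter fun g => g - z ∈ 𝔭).card * (2 * (H + 1)) :=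
          Nat.mul_le_mul_left _ (by omega)
      _ = 2 * (((box ω H).filter fun g => g - z ∈ 𝔭).card * (H + 1)) := by ring
      _ ≤ 2 * (2 ^ Fintype.card ι * (2 * H + 1) ^ Fintype.card ι) :=
          Nat.mul_le_mul_left _ (hcard.trans (card_box_two_mul ω H))
      _ = 2 ^ (Fintype.card ι + 1) * (2 * H + 1) ^ Fintype.card ι := by ring

end Pool.Agent.Q75.ND
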