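import Pool.Agent.Q46.ND.StmS

/-!
Project ND (helper46), job SJ: elimination of one variable.
-/

set_option autoImplicit false

open MvPolynomial

namespace Pool.Agent.Q75.ND

open Pool.Agent.Q46.ND

section gauss

variable {B : Type*} [CommRing B] [IsDomain B] [UniqueFactorizationMonoid B]

attribute [local instance] Polynomial.algebra Polynomial.isLocalization

/-- Gauss: polynomials in one variable over a factorial domain without common nonunit factor have a
nonzero constant in the ideal they generate. -/
theorem exists_const {κ : Type*} (p : κ → Polynomial B)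
    (h : ∀ q : Polynomial B, (∀ i, q ∣ p i) → IsUnit q) :
    ∃ b : B, b ≠ 0 ∧ Polynomial.C b ∈ Ideal.span (Set.range p) := by
  classical
  letI := UniqueFactorizationMonoid.normalizationMonoid (α := B)
  letI : NormalizedGCDMonoid B := UniqueFactorizationMonoid.toNormalizedGCDMonoid B
  have key : Ideal.map (algebraMap (Polynomial B) (Polynomial (FractionRing B)))
      (Ideal.span (Set.range p)) = ⊤ := by
    obtain ⟨g, hg⟩ := (IsPrincipalIdealRing.principal (Ideal.map
      (algebraMap (Polynomial B) (Polynomial (FractionRing B)))
      (Ideal.span (Set.range p)))).principal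
    have hdvd : ∀ i, g ∣ Polynomial.map (algebraMap B (FractionRing B)) (p i) := by
      intro i
      rw [← Ideal.mem_span_singleton]
      have : (algebraMap (Polynomial B) (Polynomial (FractionRing B))) (p i) ∈ Ideal.map
          (algebraMap (Polynomial B) (Polynomial (FractionRing B)))
          (Ideal.span (Set.range p)) := Ideal.mem_map_of_mem _ (Ideal.subset_span ⟨i, rfl⟩)
      rw [hg] at this
      exact this
    have hg0 : g ≠ 0 := by
      rintro rfl
      have h0 : ∀ i, p i = 0 := by
        intro i
        have h1 := zero_dvd_iff.mp (hdvd i)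
        exact (Polynomial.map_injective (algebraMap B (FractionRing B))
          (IsFractionRing.injective B (FractionRing B))) (by rw [h1, Polynomial.map_zero])
      have := h 0 (fun i => by rw [h0 i])
      exact not_isUnit_zero this
    obtain ⟨b, hb⟩ := IsLocalization.integerNormalization_map_to_map (nonZeroDivisors B) g
    set f := IsLocalization.integerNormalization (nonZeroDivisors B) g with hf
    have hb0 : algebraMap B (FractionRing B) (b : B) ≠ 0 := by
      intro h0
      exact nonZeroDivisors.coe_ne_zero b
        ((IsFractionRing.injective B (FractionRing B)) (by rw [h0, map_zero]))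
    have hbg : Polynomial.map (algebraMap B (FractionRing B)) f =
        Polynomial.C (algebraMap B (FractionRing B) (b : B)) * g := by
      rw [hb, ← Polynomial.smul_eq_C_mul, algebraMap_smul]
    have hf0 : f ≠ 0 := by
      intro h0
      rw [h0, Polynomial.map_zero] at hbg
      have := mul_eq_zero.mp hbg.symm
      rcases this with h1 | h1
      · exact hb0 (by simpa using h1)
      · exact hg0 h1
    set q := f.primPart with hq
    have hqp : q.IsPrimitive := Polynomial.isPrimitive_primPart f
    have hfq : f = Polynomial.C f.content * q := Polynomial.eq_C_content_mul_primPart f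
    have hc0 : algebraMap B (FractionRing B) f.content ≠ 0 := by
      intro h0
      have h1 : f.content = 0 :=
        (IsFractionRing.injective B (FractionRing B)) (by rw [h0, map_zero])
      rw [Polynomial.content_eq_zero_iff] at h1
      exact hf0 h1
    have hbg2 : Polynomial.C (algebraMap B (FractionRing B) (b : B)) * g =
        Polynomial.C (algebraMap B (FractionRing B) f.content) *
          Polynomial.map (algebraMap B (FractionRing B)) q := by
      rw [← hbg]
      conv_lhs => rw [hfq]
      rw [Polynomial.map_mul, Polynomial.map_C]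
    have hub : IsUnit (Polynomial.C (algebraMap B (FractionRing B) (b : B))) :=
      Polynomial.isUnit_C.mpr (isUnit_iff_ne_zero.mpr hb0)
    have huc : IsUnit (Polynomial.C (algebraMap B (FractionRing B) f.content)) :=
      Polynomial.isUnit_C.mpr (isUnit_iff_ne_zero.mpr hc0)
    have hqg : Polynomial.map (algebraMap B (FractionRing B)) q ∣ g := by
      have h1 : Polynomial.map (algebraMap B (FractionRing B)) q ∣
          Polynomial.C (algebraMap B (FractionRing B) (b : B)) * g := by
        rw [hbg2]; exact dvd_mul_left _ _
      exact (hub.dvd_mul_left).mp h1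
    have hqi : ∀ i, q ∣ p i := by
      intro i
      exact hqp.dvd_of_fraction_map_dvd_fraction_map (K := FractionRing B) (hqg.trans (hdvd i))
    have hqu : IsUnit q := h q hqi
    have hmu : IsUnit (Polynomial.map (algebraMap B (FractionRing B)) q) :=
      hqu.map (Polynomial.mapRingHom (algebraMap B (FractionRing B)))
    have hgu : IsUnit g := by
      have : IsUnit (Polynomial.C (algebraMap B (FractionRing B) (b : B)) * g) := by
        rw [hbg2]; exact huc.mul hmu
      exact isUnit_of_mul_isUnit_right this
    rw [hg]
    exact Ideal.span_singleton_eq_top.mpr hgu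
  have h1 : (1 : Polynomial (FractionRing B)) ∈ Ideal.map
      (algebraMap (Polynomial B) (Polynomial (FractionRing B)))
      (Ideal.span (Set.range p)) := by rw [key]; trivial
  rw [IsLocalization.mem_map_algebraMap_iff
    (Submonoid.map (Polynomial.C : B →+* Polynomial B) (nonZeroDivisors B))] at h1
  obtain ⟨⟨⟨x, hx⟩, ⟨s, hs⟩⟩, h2⟩ := h1
  obtain ⟨b, hb, hbs⟩ := Submonoid.mem_map.mp hs
  refine ⟨b, nonZeroDivisors.ne_zero hb, ?_⟩
  have h3 : s = x := by
    simp only [one_mul] at h2
    exact (Polynomial.map_injective (algebraMap B (FractionRing B))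
          (IsFractionRing.injective B (FractionRing B))) h2
  have h4 : Polynomial.C b = s := hbs
  rw [h4, h3]
  exact hx

end gauss

section descend

variable {O K : Type} [CommRing O] [IsDomain O] [Field K] [Algebra O K] [IsFractionRing O K]

/-- Clearing constant denominators in the ideal membership. -/
theorem descend {n : ℕ} {κ : Type} (p : κ → Polynomial (MvPolynomial (Fin n) O))
    (b : MvPolynomial (Fin n) K) (hb : b ≠ 0)
    (h : Polynomial.C b ∈ Ideal.span (Set.range fun i =>
      Polynomial.map (map (algebraMap O K)) (p i))) :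
    ∃ a : MvPolynomial (Fin n) O, a ≠ 0 ∧ Polynomial.C a ∈ Ideal.span (Set.range p) := by
  classical
  have hinj : Function.Injective (map (σ := Fin n) (algebraMap O K)) :=
    map_injective _ (IsFractionRing.injective O K)
  have hinj2 : Function.Injective (Polynomial.map (map (σ := Fin n) (algebraMap O K))) :=
    Polynomial.map_injective _ hinj
  letI : Algebra (MvPolynomial (Fin n) O) (MvPolynomial (Fin n) K) :=
    (map (σ := Fin n) (algebraMap O K)).toAlgebra
  haveI hloc : IsLocalization ((nonZeroDivisors O).map (C (σ := Fin n)))
    (MvPolynomial (Fin n) K) := MvPolynomial.isLocalization (nonZeroDivisors O) K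
  letI : Algebra (Polynomial (MvPolynomial (Fin n) O)) (Polynomial (MvPolynomial (Fin n) K)) :=
    (Polynomial.mapRingHom (algebraMap (MvPolynomial (Fin n) O) (MvPolynomial (Fin n) K))).toAlgebra
  haveI hloc2 : IsLocalization (Submonoid.map
      (Polynomial.C : MvPolynomial (Fin n) O →+* Polynomial (MvPolynomial (Fin n) O))
      ((nonZeroDivisors O).map (C (σ := Fin n)))) (Polynomial (MvPolynomial (Fin n) K)) :=
    Polynomial.isLocalization _ _
  have h1 : Polynomial.C b ∈ Ideal.map
      (algebraMap (Polynomial (MvPolynomial (Fin n) O)) (Polynomial (MvPolynomial (Fin n) K)))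
      (Ideal.span (Set.range p)) := by
    rw [Ideal.map_span, ← Set.range_comp]
    exact h
  rw [IsLocalization.mem_map_algebraMap_iff (Submonoid.map
      (Polynomial.C : MvPolynomial (Fin n) O →+* Polynomial (MvPolynomial (Fin n) O))
      ((nonZeroDivisors O).map (C (σ := Fin n))))] at h1
  obtain ⟨⟨⟨x, hx⟩, ⟨s, hs⟩⟩, h2⟩ := h1
  obtain ⟨c, hc, hcs⟩ := Submonoid.mem_map.mp hs
  obtain ⟨d, hd, hdc⟩ := Submonoid.mem_map.mp hc
  have h3 : Polynomial.C b * Polynomial.map (map (algebraMap O K)) s =
      Polynomial.map (map (algebraMap O K)) x := h2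
  have h4 : Polynomial.C c = s := hcs
  have h5 : (C d : MvPolynomial (Fin n) O) = c := hdc
  rw [← h4, Polynomial.map_C, ← Polynomial.C_mul] at h3
  have hx0 : x = Polynomial.C (x.coeff 0) := by
    apply hinj2
    rw [← h3, Polynomial.map_C]
    congr 1
    have := congrArg (fun y => Polynomial.coeff y 0) h3
    simpa [Polynomial.coeff_map] using this
  refine ⟨x.coeff 0, ?_, ?_⟩
  · intro h0
    rw [h0, Polynomial.C_0] at hx0
    rw [hx0, Polynomial.map_zero, Polynomial.C_eq_zero] at h3
    rcases mul_eq_zero.mp h3 with h6 | h6
    · exact hb h6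
    · rw [← h5] at h6
      have h7 : (C d : MvPolynomial (Fin n) O) = 0 := hinj (by rw [h6, map_zero])
      rw [C_eq_zero] at h7
      exact nonZeroDivisors.ne_zero hd h7
  · rw [← hx0]; exact hx

/-- The two ways to extend the coefficients. -/
theorem finSuccEquiv_map' (n : ℕ) (P : MvPolynomial (Fin (n + 1)) O) :
    finSuccEquiv K n (map (algebraMap O K) P) =
      Polynomial.map (map (algebraMap O K)) (finSuccEquiv O n P) := by
  ext i m
  rw [finSuccEquiv_coeff_coeff, Polynomial.coeff_map, coeff_map, coeff_map,
    finSuccEquiv_coeff_coeff]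

end descend

theorem finSuccEquiv_rename_succ {R : Type} [CommRing R] (n : ℕ) (Q : MvPolynomial (Fin n) R) :
    finSuccEquiv R n (rename Fin.succ Q) = Polynomial.C Q := by
  rw [finSuccEquiv_apply, coe_eval₂Hom, eval₂_rename]
  have h1 : ((fun i : Fin (n + 1) => Fin.cases (motive := fun _ => Polynomial (MvPolynomial (Fin n) R))
      Polynomial.X (fun k => Polynomial.C (X k)) i) ∘ Fin.succ) =
      fun k : Fin n => (Polynomial.C : MvPolynomial (Fin n) R →+* _) (X k) := by
    funext k; rfl
  have h2 : (eval₂Hom (Polynomial.C.comp (C : R →+* MvPolynomial (Fin n) R))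
      fun k : Fin n => (Polynomial.C : MvPolynomial (Fin n) R →+* _) (X k)) = Polynomial.C := by
    apply MvPolynomial.ringHom_ext
    · intro r; simp
    · intro i; simp
  rw [h1, ← coe_eval₂Hom, h2]

theorem t_SJ : P_SJ := by
  intro O K _ _ _ _ _ n κ _ P hP
  classical
  have hK : ∀ q : Polynomial (MvPolynomial (Fin n) K),
      (∀ i, q ∣ Polynomial.map (map (algebraMap O K)) (finSuccEquiv O n (P i))) → IsUnit q := by
    intro q hq
    have h1 : IsUnit ((finSuccEquiv K n).symm q) := by
      apply hP
      intro i
      have h2 := hq i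
      rw [← finSuccEquiv_map'] at h2
      have h3 := map_dvd (finSuccEquiv K n).symm h2
      rwa [AlgEquiv.symm_apply_apply] at h3
    have h4 := h1.map (finSuccEquiv K n)
    rwa [AlgEquiv.apply_symm_apply] at h4
  constructor
  · obtain ⟨b, hb, hb2⟩ := exists_const _ hK
    obtain ⟨a, ha, ha2⟩ := descend (fun i => finSuccEquiv O n (P i)) b hb hb2
    refine ⟨a, ha, ?_⟩
    have h5 : Ideal.span (Set.range fun i => finSuccEquiv O n (P i)) =
        Ideal.map (finSuccEquiv O n : MvPolynomial (Fin (n + 1)) O →+* _)
          (Ideal.span (Set.range P)) := by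
      rw [Ideal.map_span, ← Set.range_comp]
      rfl
    have h6 : finSuccEquiv O n (rename Fin.succ a) ∈
        Ideal.map (finSuccEquiv O n : MvPolynomial (Fin (n + 1)) O →+* _)
          (Ideal.span (Set.range P)) := by
      rw [← h5, finSuccEquiv_rename_succ]
      exact ha2
    obtain ⟨y, hy, hy2⟩ := (Ideal.mem_map_of_equiv (finSuccEquiv O n).toRingEquiv _).mp h6
    have : y = rename Fin.succ a := (finSuccEquiv O n).injective hy2
    rw [← this]
    exact hy
  · intro Q hQ
    have h1 : IsUnit (Polynomial.C Q : Polynomial (MvPolynomial (Fin n) K)) := by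
      apply hK
      intro i
      rw [Polynomial.C_dvd_iff_dvd_coeff]
      intro l
      rw [Polynomial.coeff_map]
      exact hQ i l
    exact Polynomial.isUnit_C.mp h1

end Pool.Agent.Q75.ND
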