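import Pool.Agent.Q75.ND.SH

/-!
Project ND (helper46), job SK: Ekedahl lemma by induction on the number of variables.
-/

set_option autoImplicit false

open MvPolynomial NumberField Filter
open scoped Classical

namespace Pool.Agent.Q75.ND

open Pool.Agent.Q46.ND

variable {K ι : Type} [Field K] [NumberField K] [Fintype ι]

/-- The roots of a polynomial modulo a maximal ideal. -/
theorem root_classes {𝔭 : Ideal (𝓞 K)} (hmax : 𝔭.IsMaximal) (f : Polynomial (𝓞 K)) {D : ℕ}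
    (hD : f.natDegree ≤ D) {l : ℕ} (hl : f.coeff l ∉ 𝔭) :
    ∃ Z : Finset (𝓞 K), Z.card ≤ D ∧ ∀ c, f.eval c ∈ 𝔭 → ∃ z ∈ Z, c - z ∈ 𝔭 := by
  obtain ⟨k, hk, φ, hφ, hsurj⟩ : ∃ (k : Type) (_ : Field k) (φ : 𝓞 K →+* k),
      (∀ x, φ x = 0 ↔ x ∈ 𝔭) ∧ Function.Surjective φ :=
    ⟨𝓞 K ⧸ 𝔭, Ideal.Quotient.field 𝔭, Ideal.Quotient.mk 𝔭,
      fun x => Ideal.Quotient.eq_zero_iff_mem, Ideal.Quotient.mk_surjective⟩
  have hg0 : f.map φ ≠ 0 := by
    intro h0
    apply hl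
    rw [← hφ, ← Polynomial.coeff_map, h0, Polynomial.coeff_zero]
  refine ⟨(f.map φ).roots.toFinset.image (Function.surjInv hsurj), ?_, ?_⟩
  · refine Finset.card_image_le.trans ?_
    refine (Multiset.toFinset_card_le _).trans ?_
    exact (Polynomial.card_roots' _).trans (Polynomial.natDegree_map_le.trans hD)
  · intro c hc
    refine ⟨Function.surjInv hsurj (φ c), ?_, ?_⟩
    · refine Finset.mem_image_of_mem _ ?_
      rw [Multiset.mem_toFinset, Polynomial.mem_roots hg0, Polynomial.IsRoot.def,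
        Polynomial.eval_map, Polynomial.eval₂_hom, hφ]
      exact hc
    · rw [← hφ, map_sub, Function.surjInv_eq hsurj, sub_self]

/-- The values of an element of an ideal generated by polynomials. -/
theorem eval_mem_of_mem_span {J κ : Type} (P : κ → MvPolynomial J (𝓞 K)) (Q : MvPolynomial J (𝓞 K))
    (hQ : Q ∈ Ideal.span (Set.range P)) (a : J → 𝓞 K) (𝔭 : Ideal (𝓞 K))
    (h : ∀ i, eval a (P i) ∈ 𝔭) : eval a Q ∈ 𝔭 := by
  have h1 : Ideal.span (Set.range P) ≤ Ideal.comap (eval a) 𝔭 := by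
    rw [Ideal.span_le]
    rintro _ ⟨i, rfl⟩
    exact h i
  exact h1 hQ

/-- No variables. -/
theorem t_SK_zero (ω : Module.Basis ι ℤ (𝓞 K)) {κ : Type} [Fintype κ]
    (P : κ → MvPolynomial (Fin 0) (𝓞 K))
    (hP : ∀ Q : MvPolynomial (Fin 0) K, (∀ i, Q ∣ map (algebraMap (𝓞 K) K) (P i)) → IsUnit Q) :
    ∃ C : ℝ, Rare ω (Fin 0) C fun M W a₀ g =>
      ∃ 𝔭 : Ideal (𝓞 K), Far M W 𝔭 ∧ ∀ i, eval (pt a₀ W g) (P i) ∈ 𝔭 := by
  obtain ⟨i, hi⟩ : ∃ i, (P i).coeff 0 ≠ 0 := by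
    by_contra hcon
    push Not at hcon
    have h0 : ∀ i, P i = 0 := by
      intro i
      rw [eq_C_of_isEmpty (P i), hcon i, C_0]
    exact not_isUnit_zero (hP 0 fun i => by rw [h0 i, map_zero])
  set MR := (Algebra.norm ℤ ((P i).coeff 0)).natAbs with hMR
  refine ⟨MR, fun M W hM a₀ => ?_⟩
  have hM0 : (0 : ℝ) < M := by exact_mod_cast hM
  refine Eventually.of_forall fun H => ?_
  rcases lt_or_ge M MR with hMM | hMM
  · have h1 := card_filter_boxJ_le (J := Fin 0) ω H fun g =>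
      ∃ 𝔭 : Ideal (𝓞 K), Far M W 𝔭 ∧ ∀ i, eval (pt a₀ W g) (P i) ∈ 𝔭
    have h2 : (1 : ℝ) ≤ MR / M := by
      rw [le_div_iff₀ hM0, one_mul]
      exact_mod_cast hMM.le
    calc _ ≤ ((box ω H).card : ℝ) ^ Fintype.card (Fin 0) := by exact_mod_cast h1
      _ = 1 * ((box ω H).card : ℝ) ^ Fintype.card (Fin 0) := (one_mul _).symm
      _ ≤ MR / M * ((box ω H).card : ℝ) ^ Fintype.card (Fin 0) := by gcongr
  · have h1 : ((boxJ ω (Fin 0) H).filter fun g =>
        ∃ 𝔭 : Ideal (𝓞 K), Far M W 𝔭 ∧ ∀ i, eval (pt a₀ W g) (P i) ∈ 𝔭) = ∅ := by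
      rw [Finset.filter_eq_empty_iff]
      rintro g _ ⟨𝔭, hfar, hmem⟩
      have h2 := hmem i
      rw [eq_C_of_isEmpty (P i), eval_C] at h2
      exact coeff_notMem (P i) hi hMM hfar h2
    rw [h1, Finset.card_empty, Nat.cast_zero]
    positivity

theorem update_zero_eq {n : ℕ} {α : Type} (inst : DecidableEq (Fin (n + 1)))
    (a : Fin (n + 1) → α) (c : α) :
    @Function.update (Fin (n + 1)) (fun _ => α) inst a 0 c =
      Fin.cons (α := fun _ => α) c fun k => a (Fin.succ k) := by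
  funext j
  refine Fin.cases ?_ (fun k => ?_) j
  · simp
  · rw [Function.update_of_ne (Fin.succ_ne_zero k), Fin.cons_succ]

/-- The induction step. -/
theorem t_SK_succ (hSH : P_SH) (hSJ : P_SJ) (ω : Module.Basis ι ℤ (𝓞 K)) (n : ℕ)
    (ih : ∀ {κ : Type} [Fintype κ] (P : κ → MvPolynomial (Fin n) (𝓞 K)),
      (∀ Q : MvPolynomial (Fin n) K, (∀ i, Q ∣ map (algebraMap (𝓞 K) K) (P i)) → IsUnit Q) →
      ∃ C : ℝ, Rare ω (Fin n) C fun M W a₀ g =>
        ∃ 𝔭 : Ideal (𝓞 K), Far M W 𝔭 ∧ ∀ i, eval (pt a₀ W g) (P i) ∈ 𝔭)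
    {κ : Type} [Fintype κ] (P : κ → MvPolynomial (Fin (n + 1)) (𝓞 K))
    (hP : ∀ Q : MvPolynomial (Fin (n + 1)) K,
      (∀ i, Q ∣ map (algebraMap (𝓞 K) K) (P i)) → IsUnit Q) :
    ∃ C : ℝ, Rare ω (Fin (n + 1)) C fun M W a₀ g =>
      ∃ 𝔭 : Ideal (𝓞 K), Far M W 𝔭 ∧ ∀ i, eval (pt a₀ W g) (P i) ∈ 𝔭 := by
  obtain ⟨⟨R, hR0, hRmem⟩, hcoef⟩ := hSJ (O := 𝓞 K) (K := K) n P hP
  set D := Finset.univ.sup fun i => (finSuccEquiv (𝓞 K) n (P i)).natDegree with hD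
  have hDi : ∀ i, (finSuccEquiv (𝓞 K) n (P i)).natDegree ≤ D := fun i =>
    Finset.le_sup (f := fun i => (finSuccEquiv (𝓞 K) n (P i)).natDegree) (Finset.mem_univ i)
  obtain ⟨C₂, hC₂⟩ := ih (κ := κ × Fin (D + 1))
    (fun il => (finSuccEquiv (𝓞 K) n (P il.1)).coeff il.2) (by
      intro Q hQ
      apply hcoef Q
      intro i l
      rcases lt_or_ge l (D + 1) with hl | hl
      · exact hQ (i, ⟨l, hl⟩)
      · rw [Polynomial.coeff_eq_zero_of_natDegree_lt ((hDi i).trans_lt hl), map_zero]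
        exact dvd_zero _)
  -- the bad property
  obtain ⟨Bad, hBad⟩ : ∃ Bad : (Fin (n + 1) → 𝓞 K) → Ideal (𝓞 K) → Prop, ∀ a 𝔭, Bad a 𝔭 ↔
      (∀ i, eval a (P i) ∈ 𝔭) ∧
        ∃ i l, eval (fun k => a (Fin.succ k)) ((finSuccEquiv (𝓞 K) n (P i)).coeff l) ∉ 𝔭 :=
    ⟨_, fun _ _ => Iff.rfl⟩
  set e : Fin n → {j : Fin (n + 1) // j ≠ 0} := fun k => ⟨k.succ, Fin.succ_ne_zero k⟩ with he
  have hinj : Function.Injective e := by
    intro a b hab
    exact Fin.succ_injective n (congrArg Subtype.val hab)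
  have hR'0 : rename e R ≠ 0 := by
    intro h0
    exact hR0 (rename_injective e hinj (by rw [h0, map_zero]))
  obtain ⟨C₃, hC₃⟩ := hSH ω (0 : Fin (n + 1)) (rename e R) hR'0 D Bad (by
      intro a 𝔭 hab
      rw [hBad] at hab
      have h1 := eval_mem_of_mem_span P _ hRmem a 𝔭 hab.1
      rw [eval_rename] at h1 ⊢
      exact h1) (by
      intro a 𝔭 hmax
      by_cases hall : ∃ i l, eval (fun k => a (Fin.succ k))
          ((finSuccEquiv (𝓞 K) n (P i)).coeff l) ∉ 𝔭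
      · obtain ⟨i, l, hil⟩ := hall
        obtain ⟨Z, hZ, hZc⟩ := root_classes hmax
          ((finSuccEquiv (𝓞 K) n (P i)).map (eval fun k => a (Fin.succ k)))
          (Polynomial.natDegree_map_le.trans (hDi i)) (l := l) (by
            rw [Polynomial.coeff_map]; exact hil)
        refine ⟨Z, hZ, fun c hc => hZc c ?_⟩
        have h2 := ((hBad _ _).mp hc).1 i
        rw [update_zero_eq] at h2
        rw [eval_eq_eval_mv_eval'] at h2
        exact h2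
      · refine ⟨∅, by simp, fun c hc => ?_⟩
        exfalso
        apply hall
        obtain ⟨_, i, l, hil⟩ := (hBad _ _).mp hc
        refine ⟨i, l, ?_⟩
        rw [update_zero_eq] at hil
        simp only [Fin.cons_succ] at hil
        exact hil)
  refine ⟨C₂ + C₃, fun M W hM a₀ => ?_⟩
  filter_upwards [hC₂ M W hM (fun k => a₀ (Fin.succ k)), hC₃ M W hM a₀] with H h2 h3
  obtain ⟨T, hT⟩ : ∃ T : (Fin n → 𝓞 K) → Prop, ∀ g, T g ↔ ∃ 𝔭 : Ideal (𝓞 K), Far M W 𝔭 ∧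
      ∀ il : κ × Fin (D + 1), eval (pt (fun k => a₀ (Fin.succ k)) W g)
        ((finSuccEquiv (𝓞 K) n (P il.1)).coeff il.2) ∈ 𝔭 := ⟨_, fun _ => Iff.rfl⟩
  have h2' : (((boxJ ω (Fin n) H).filter T).card : ℝ) ≤
      C₂ / M * ((box ω H).card : ℝ) ^ Fintype.card (Fin n) := by
    have : T = fun g => ∃ 𝔭 : Ideal (𝓞 K), Far M W 𝔭 ∧
      ∀ il : κ × Fin (D + 1), eval (pt (fun k => a₀ (Fin.succ k)) W g)
        ((finSuccEquiv (𝓞 K) n (P il.1)).coeff il.2) ∈ 𝔭 := by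
      funext g; exact propext (hT g)
    rw [this]
    exact h2
  have hsub : ((boxJ ω (Fin (n + 1)) H).filter fun g =>
      ∃ 𝔭 : Ideal (𝓞 K), Far M W 𝔭 ∧ ∀ i, eval (pt a₀ W g) (P i) ∈ 𝔭) ⊆
      ((boxJ ω (Fin (n + 1)) H).filter fun g => T fun k => g (Fin.succ k)) ∪
      ((boxJ ω (Fin (n + 1)) H).filter fun g =>
        ∃ 𝔭 : Ideal (𝓞 K), Far M W 𝔭 ∧ Bad (pt a₀ W g) 𝔭) := by
    intro g hg
    rw [Finset.mem_filter] at hg
    obtain ⟨hgb, 𝔭, hfar, hall⟩ := hg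
    rw [Finset.mem_union, Finset.mem_filter, Finset.mem_filter]
    by_cases hex : ∃ i l, eval (fun k => pt a₀ W g (Fin.succ k))
        ((finSuccEquiv (𝓞 K) n (P i)).coeff l) ∉ 𝔭
    · exact Or.inr ⟨hgb, 𝔭, hfar, (hBad _ _).mpr ⟨hall, hex⟩⟩
    · push Not at hex
      exact Or.inl ⟨hgb, (hT _).mpr ⟨𝔭, hfar, fun il => hex il.1 il.2⟩⟩
  have hE2 : ((boxJ ω (Fin (n + 1)) H).filter fun g => T fun k => g (Fin.succ k)).card ≤
      (box ω H).card * ((boxJ ω (Fin n) H).filter T).card := by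
    rw [← Finset.card_product]
    refine Finset.card_le_card_of_injOn (fun g => (g 0, fun k => g (Fin.succ k))) ?_ ?_
    · intro g hg
      rw [Finset.mem_coe, Finset.mem_filter, mem_boxJ] at hg
      rw [Finset.mem_coe, Finset.mem_product, Finset.mem_filter, mem_boxJ]
      exact ⟨hg.1 0, fun k => hg.1 k.succ, hg.2⟩
    · intro g _ g' _ hgg
      have h4 : g 0 = g' 0 := congrArg Prod.fst hgg
      have h5 : (fun k => g (Fin.succ k)) = fun k => g' (Fin.succ k) := congrArg Prod.snd hgg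
      funext j
      refine Fin.cases h4 (fun k => ?_) j
      exact congrFun h5 k
  have hcn : Fintype.card (Fin (n + 1)) = Fintype.card (Fin n) + 1 := by
    rw [Fintype.card_fin, Fintype.card_fin]
  calc (((boxJ ω (Fin (n + 1)) H).filter fun g =>
        ∃ 𝔭 : Ideal (𝓞 K), Far M W 𝔭 ∧ ∀ i, eval (pt a₀ W g) (P i) ∈ 𝔭).card : ℝ)
      ≤ (((boxJ ω (Fin (n + 1)) H).filter fun g => T fun k => g (Fin.succ k)).card : ℝ) +
        (((boxJ ω (Fin (n + 1)) H).filter fun g =>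
          ∃ 𝔭 : Ideal (𝓞 K), Far M W 𝔭 ∧ Bad (pt a₀ W g) 𝔭).card : ℝ) := by
        exact_mod_cast (Finset.card_le_card hsub).trans (Finset.card_union_le _ _)
    _ ≤ (box ω H).card * (C₂ / M * ((box ω H).card : ℝ) ^ Fintype.card (Fin n)) +
        C₃ / M * ((box ω H).card : ℝ) ^ Fintype.card (Fin (n + 1)) := by
        refine add_le_add ?_ h3
        calc (((boxJ ω (Fin (n + 1)) H).filter fun g => T fun k => g (Fin.succ k)).card : ℝ)
            ≤ (box ω H).card * (((boxJ ω (Fin n) H).filter T).card : ℝ) := by exact_mod_cast hE2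
          _ ≤ _ := by gcongr
    _ = (C₂ + C₃) / M * ((box ω H).card : ℝ) ^ Fintype.card (Fin (n + 1)) := by
        rw [hcn]; ring

theorem t_SK (_hSA : P_SA) (_hSG1 : P_SG1) (hSH : P_SH) (hSJ : P_SJ) : P_SK := by
  intro K ι _ _ _ ω n
  induction n with
  | zero => intro κ _ P hP; exact t_SK_zero ω P hP
  | succ n ih => intro κ _ P hP; exact t_SK_succ hSH hSJ ω n ih P hP

end Pool.Agent.Q75.ND
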