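import Pool.Agent.Q46.ND.StmS

/-!
Project ND (helper46): elementary facts about the box.
-/

set_option autoImplicit false

open MvPolynomial NumberField
open scoped Classical

namespace Pool.Agent.Q75.ND

open Pool.Agent.Q46.ND

variable {K ι : Type} [Field K] [NumberField K] [Fintype ι]

theorem mem_box (ω : Module.Basis ι ℤ (𝓞 K)) (H : ℕ) (a : 𝓞 K) :
    a ∈ box ω H ↔ ∀ i, |ω.repr a i| ≤ (H : ℤ) := by
  unfold box
  simp only [Finset.mem_image, Fintype.mem_piFinset, Finset.mem_Icc]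
  constructor
  · rintro ⟨c, hc, rfl⟩ i
    rw [Module.Basis.repr_sum_self]
    exact abs_le.mpr (hc i)
  · intro h
    exact ⟨fun i => ω.repr a i, fun i => abs_le.mp (h i), ω.sum_repr a⟩

theorem card_box (ω : Module.Basis ι ℤ (𝓞 K)) (H : ℕ) :
    (box ω H).card = (2 * H + 1) ^ Fintype.card ι := by
  unfold box
  rw [Finset.card_image_of_injective]
  · rw [Fintype.card_piFinset, Finset.prod_const, Finset.card_univ, Int.card_Icc]
    congr 1
    omega
  · intro c c' h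
    have : ∀ i, ω.repr (∑ i, c i • ω i) i = ω.repr (∑ i, c' i • ω i) i := by
      intro i; exact congrArg (fun x => ω.repr x i) h
    funext i
    have h1 := this i
    rwa [Module.Basis.repr_sum_self, Module.Basis.repr_sum_self] at h1

theorem card_boxJ (ω : Module.Basis ι ℤ (𝓞 K)) (H : ℕ) (J : Type) [Fintype J] :
    (boxJ ω J H).card = ((box ω H).card) ^ Fintype.card J := by
  unfold boxJ
  rw [Fintype.card_piFinset, Finset.prod_const, Finset.card_univ]

theorem mem_boxJ (ω : Module.Basis ι ℤ (𝓞 K)) (H : ℕ) (J : Type) [Fintype J] (g : J → 𝓞 K) :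
    g ∈ boxJ ω J H ↔ ∀ j, g j ∈ box ω H := by
  unfold boxJ
  rw [Fintype.mem_piFinset]

/-- A rational integer in a proper ideal containing the prime number `p` is divisible by `p`. -/
theorem dvd_of_mem {𝔭 : Ideal (𝓞 K)} (h𝔭 : 𝔭 ≠ ⊤) {p : ℕ} (hp : p.Prime)
    (hpm : (p : 𝓞 K) ∈ 𝔭) {n : ℤ} (hn : (n : 𝓞 K) ∈ 𝔭) : (p : ℤ) ∣ n := by
  by_contra hnd
  have hcop : IsCoprime (p : ℤ) n := (Nat.prime_iff_prime_int.mp hp).coprime_iff_not_dvd.mpr hnd
  obtain ⟨u, v, huv⟩ := hcop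
  apply h𝔭
  rw [Ideal.eq_top_iff_one]
  have h1 : ((u * p + v * n : ℤ) : 𝓞 K) ∈ 𝔭 := by
    push_cast
    exact 𝔭.add_mem (𝔭.mul_mem_left _ hpm) (𝔭.mul_mem_left _ hn)
  rwa [huv, Int.cast_one] at h1

theorem add_mem_box (ω : Module.Basis ι ℤ (𝓞 K)) {H : ℕ} {a b : 𝓞 K} (ha : a ∈ box ω H)
    (hb : b ∈ box ω H) : a + b ∈ box ω (2 * H) := by
  rw [mem_box] at *
  intro i
  rw [map_add, Finsupp.add_apply]
  calc |ω.repr a i + ω.repr b i| ≤ |ω.repr a i| + |ω.repr b i| := abs_add_le _ _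
    _ ≤ (H : ℤ) + H := add_le_add (ha i) (hb i)
    _ = ((2 * H : ℕ) : ℤ) := by push_cast; ring

theorem card_box_two_mul (ω : Module.Basis ι ℤ (𝓞 K)) (H : ℕ) :
    (box ω (2 * H)).card ≤ 2 ^ Fintype.card ι * (2 * H + 1) ^ Fintype.card ι := by
  rw [card_box, ← mul_pow]
  exact Nat.pow_le_pow_left (by omega) _

end Pool.Agent.Q75.ND
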