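import Pool.Agent.Q75.ND.Base

/-!
Project ND (helper46), job SE: few large prime divisors of a polynomial value.
-/

set_option autoImplicit false

open MvPolynomial NumberField Filter
open scoped Classical

namespace Pool.Agent.Q75.ND

open Pool.Agent.Q46.ND

/-- A crude bound for the values of a polynomial. -/
theorem norm_eval_le {J : Type} (Q : MvPolynomial J ℂ) (y : J → ℂ) (B : ℝ) (hB : 1 ≤ B)
    (hy : ∀ j, ‖y j‖ ≤ B) :
    ‖eval y Q‖ ≤ (∑ m ∈ Q.support, ‖Q.coeff m‖) * B ^ Q.totalDegree := by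
  rw [eval_eq, Finset.sum_mul]
  refine (norm_sum_le _ _).trans (Finset.sum_le_sum fun m hm => ?_)
  rw [norm_mul, norm_prod]
  refine mul_le_mul_of_nonneg_left ?_ (norm_nonneg _)
  calc ∏ i ∈ m.support, ‖y i ^ m i‖ ≤ ∏ i ∈ m.support, B ^ m i := by
        refine Finset.prod_le_prod (fun i _ => norm_nonneg _) fun i _ => ?_
        rw [norm_pow]
        exact pow_le_pow_left₀ (norm_nonneg _) (hy i) _
    _ = B ^ (m.sum fun _ e => e) := by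
        rw [Finset.prod_pow_eq_pow_sum]; rfl
    _ ≤ B ^ Q.totalDegree := pow_le_pow_right₀ hB (le_totalDegree hm)

variable {K ι J : Type} [Field K] [NumberField K] [Fintype ι] [Fintype J]

theorem norm_box_le (ω : Module.Basis ι ℤ (𝓞 K)) (σ : K →ₐ[ℚ] ℂ) {H : ℕ} {a : 𝓞 K}
    (ha : a ∈ box ω H) : ‖σ (a : K)‖ ≤ H * ∑ i, ‖σ (ω i : K)‖ := by
  rw [mem_box] at ha
  have h1 : σ (a : K) = ∑ i, ((ω.repr a i : ℤ) : ℂ) * σ (ω i : K) := by
    conv_lhs => rw [← ω.sum_repr a]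
    push_cast
    simp only [zsmul_eq_mul, map_sum, map_mul, map_intCast]
  rw [h1, Finset.mul_sum]
  refine (norm_sum_le _ _).trans (Finset.sum_le_sum fun i _ => ?_)
  rw [norm_mul]
  refine mul_le_mul_of_nonneg_right ?_ (norm_nonneg _)
  rw [Complex.norm_intCast]
  have := ha i
  exact_mod_cast this

theorem exists_norm_bound (ω : Module.Basis ι ℤ (𝓞 K)) (R : MvPolynomial J (𝓞 K)) (W : ℕ)
    (a₀ : J → 𝓞 K) (σ : K →ₐ[ℚ] ℂ) :
    ∃ C : ℝ, 1 ≤ C ∧ ∀ H : ℕ, 1 ≤ H → ∀ g ∈ boxJ ω J H,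
      ‖σ ((eval (pt a₀ W g) R : 𝓞 K) : K)‖ ≤ C * (H : ℝ) ^ R.totalDegree := by
  set τ : 𝓞 K →+* ℂ := (σ : K →+* ℂ).comp (algebraMap (𝓞 K) K) with hτ
  set B₀ : ℝ := 1 + ∑ j, ‖τ (a₀ j)‖ + W * ∑ i, ‖τ (ω i)‖ with hB₀
  have hs1 : 0 ≤ ∑ j, ‖τ (a₀ j)‖ := Finset.sum_nonneg fun _ _ => norm_nonneg _
  have hs2 : 0 ≤ ∑ i, ‖τ (ω i)‖ := Finset.sum_nonneg fun _ _ => norm_nonneg _
  have hB1 : 1 ≤ B₀ := by
    have : 0 ≤ (W : ℝ) * ∑ i, ‖τ (ω i)‖ := by positivity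
    rw [hB₀]; linarith
  have hcoef : 0 ≤ ∑ m ∈ (map τ R).support, ‖(map τ R).coeff m‖ :=
    Finset.sum_nonneg fun _ _ => norm_nonneg _
  refine ⟨1 + (∑ m ∈ (map τ R).support, ‖(map τ R).coeff m‖) * B₀ ^ R.totalDegree, ?_, ?_⟩
  · have : 0 ≤ (∑ m ∈ (map τ R).support, ‖(map τ R).coeff m‖) * B₀ ^ R.totalDegree := by
      positivity
    linarith
  · intro H hH g hg
    have hH1 : (1 : ℝ) ≤ H := by exact_mod_cast hH
    have e1 : σ ((eval (pt a₀ W g) R : 𝓞 K) : K) = eval (fun j => τ (pt a₀ W g j)) (map τ R) := by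
      have : σ ((eval (pt a₀ W g) R : 𝓞 K) : K) = τ (eval (pt a₀ W g) R) := rfl
      rw [this, eval_map]
      have h0 := eval₂_comp_left τ (RingHom.id _) (pt a₀ W g) R
      rw [RingHom.comp_id] at h0
      exact h0
    rw [e1]
    have hy : ∀ j, ‖τ (pt a₀ W g j)‖ ≤ B₀ * H := by
      intro j
      have h1 : τ (pt a₀ W g j) = τ (a₀ j) + W * τ (g j) := by
        simp [pt]
      rw [h1]
      have h2 : ‖τ (g j)‖ ≤ H * ∑ i, ‖τ (ω i)‖ :=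
        norm_box_le ω σ ((mem_boxJ ω H J g).mp hg j)
      have h3 : ‖τ (a₀ j)‖ ≤ ∑ j, ‖τ (a₀ j)‖ :=
        Finset.single_le_sum (f := fun j => ‖τ (a₀ j)‖) (fun _ _ => norm_nonneg _)
          (Finset.mem_univ j)
      calc ‖τ (a₀ j) + W * τ (g j)‖ ≤ ‖τ (a₀ j)‖ + W * ‖τ (g j)‖ := by
            refine (norm_add_le _ _).trans ?_
            rw [norm_mul, Complex.norm_natCast]
        _ ≤ (∑ j, ‖τ (a₀ j)‖) + W * (H * ∑ i, ‖τ (ω i)‖) := by gcongr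
        _ ≤ (1 + ∑ j, ‖τ (a₀ j)‖) * H + W * (H * ∑ i, ‖τ (ω i)‖) := by
            have : ∑ j, ‖τ (a₀ j)‖ ≤ (1 + ∑ j, ‖τ (a₀ j)‖) * H := by nlinarith
            linarith
        _ = B₀ * H := by rw [hB₀]; ring
    have hBH : 1 ≤ B₀ * H := by nlinarith
    have hdeg : (map τ R).totalDegree ≤ R.totalDegree := by
      refine Finset.sup_mono ?_
      exact support_map_subset τ R
    calc ‖eval (fun j => τ (pt a₀ W g j)) (map τ R)‖
        ≤ (∑ m ∈ (map τ R).support, ‖(map τ R).coeff m‖) * (B₀ * H) ^ (map τ R).totalDegree :=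
          norm_eval_le _ _ _ hBH hy
      _ ≤ (∑ m ∈ (map τ R).support, ‖(map τ R).coeff m‖) * (B₀ * H) ^ R.totalDegree := by
          refine mul_le_mul_of_nonneg_left (pow_le_pow_right₀ hBH hdeg) hcoef
      _ = (∑ m ∈ (map τ R).support, ‖(map τ R).coeff m‖) * B₀ ^ R.totalDegree *
            (H : ℝ) ^ R.totalDegree := by rw [mul_pow, mul_assoc]
      _ ≤ (1 + (∑ m ∈ (map τ R).support, ‖(map τ R).coeff m‖) * B₀ ^ R.totalDegree) *
            (H : ℝ) ^ R.totalDegree := by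
          refine mul_le_mul_of_nonneg_right ?_ (by positivity)
          linarith

/-- The norm of an algebraic integer is the product of the absolute values of its images. -/
theorem natAbs_norm_eq (x : 𝓞 K) :
    (((Algebra.norm ℤ x).natAbs : ℕ) : ℝ) = ∏ σ : K →ₐ[ℚ] ℂ, ‖σ (x : K)‖ := by
  have h1 := Algebra.norm_eq_prod_embeddings ℚ ℂ (x : K)
  have h2 : (Algebra.norm ℤ x : ℚ) = Algebra.norm ℚ (x : K) := Algebra.coe_norm_int x
  rw [← norm_prod, ← h1, ← h2]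
  simp [Nat.cast_natAbs]

/-- The norm of an ideal containing a prime number is divisible by it. -/
theorem le_absNorm {𝔭 : Ideal (𝓞 K)} (h𝔭 : 𝔭 ≠ ⊤) {p : ℕ} (hp : p.Prime)
    (hpm : (p : 𝓞 K) ∈ 𝔭) : p ≤ Ideal.absNorm 𝔭 := by
  have h1 : (p : ℤ) ∣ ((Ideal.absNorm 𝔭 : ℕ) : ℤ) := by
    apply dvd_of_mem h𝔭 hp hpm
    have := Ideal.absNorm_mem 𝔭
    exact_mod_cast this
  have h2 : p ∣ Ideal.absNorm 𝔭 := by exact_mod_cast h1
  refine Nat.le_of_dvd ?_ h2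
  rw [Nat.pos_iff_ne_zero]
  intro h0
  rw [Ideal.absNorm_eq_zero_iff] at h0
  rw [h0] at hpm
  have : (p : 𝓞 K) = 0 := hpm
  exact hp.ne_zero (by exact_mod_cast this)

/-- The product of the norms of distinct maximal ideals containing `x` is at most the norm. -/
theorem pow_card_le {x : 𝓞 K} (hx : x ≠ 0) (H : ℕ) (F : Finset (Ideal (𝓞 K)))
    (hF : ∀ 𝔭 ∈ F, 𝔭.IsMaximal ∧ x ∈ 𝔭 ∧ ∃ p : ℕ, p.Prime ∧ H < p ∧ (p : 𝓞 K) ∈ 𝔭) :
    (H + 1) ^ F.card ≤ (Algebra.norm ℤ x).natAbs := by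
  have h1 : ∏ 𝔭 ∈ F, 𝔭 ∣ Ideal.span {x} := by
    refine Finset.prod_primes_dvd _ (fun 𝔭 h𝔭 => ?_) fun 𝔭 h𝔭 => ?_
    · obtain ⟨hm, hx𝔭, _⟩ := hF 𝔭 h𝔭
      refine Ideal.prime_of_isPrime ?_ hm.isPrime
      rintro rfl
      exact hx hx𝔭
    · obtain ⟨hm, hx𝔭, _⟩ := hF 𝔭 h𝔭
      rw [Ideal.dvd_span_singleton]
      exact hx𝔭
  have h2 : ∏ 𝔭 ∈ F, Ideal.absNorm 𝔭 ∣ (Algebra.norm ℤ x).natAbs := by
    rw [← Ideal.absNorm_span_singleton, ← map_prod]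
    exact Ideal.absNorm_dvd_absNorm_of_le (Ideal.le_of_dvd h1)
  have h3 : (Algebra.norm ℤ x).natAbs ≠ 0 := by
    rw [Int.natAbs_ne_zero]
    exact Algebra.norm_ne_zero_iff.mpr hx
  calc (H + 1) ^ F.card = ∏ _𝔭 ∈ F, (H + 1) := by rw [Finset.prod_const]
    _ ≤ ∏ 𝔭 ∈ F, Ideal.absNorm 𝔭 := by
        refine Finset.prod_le_prod' fun 𝔭 h𝔭 => ?_
        obtain ⟨hm, hx𝔭, p, hp, hHp, hpm⟩ := hF 𝔭 h𝔭
        exact (Nat.succ_le_of_lt hHp).trans (le_absNorm hm.ne_top hp hpm)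
    _ ≤ (Algebra.norm ℤ x).natAbs := Nat.le_of_dvd (Nat.pos_of_ne_zero h3) h2

theorem t_SE' : P_SE := by
  intro K ι J _ _ _ _ ω R
  set n := Fintype.card (K →ₐ[ℚ] ℂ) with hn
  refine ⟨R.totalDegree * n, fun W a₀ => ?_⟩
  choose C hC1 hC using fun σ : K →ₐ[ℚ] ℂ => exists_norm_bound ω R W a₀ σ
  obtain ⟨N, hN⟩ := exists_nat_gt (∏ σ, C σ)
  filter_upwards [eventually_ge_atTop (max 1 N)] with H hH g hg hx
  have hH1 : 1 ≤ H := (le_max_left _ _).trans hH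
  have hHN : N ≤ H := (le_max_right _ _).trans hH
  set x := eval (pt a₀ W g) R with hxdef
  set S := {𝔭 : Ideal (𝓞 K) | 𝔭.IsMaximal ∧ x ∈ 𝔭 ∧
    ∃ p : ℕ, p.Prime ∧ H < p ∧ (p : 𝓞 K) ∈ 𝔭} with hS
  have hbound : (((Algebra.norm ℤ x).natAbs : ℕ) : ℝ) ≤
      (∏ σ, C σ) * (H : ℝ) ^ (R.totalDegree * n) := by
    rw [natAbs_norm_eq]
    calc ∏ σ : K →ₐ[ℚ] ℂ, ‖σ (x : K)‖
        ≤ ∏ σ : K →ₐ[ℚ] ℂ, (C σ * (H : ℝ) ^ R.totalDegree) :=
          Finset.prod_le_prod (fun σ _ => norm_nonneg _) fun σ _ => hC σ H hH1 g hg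
      _ = (∏ σ, C σ) * (H : ℝ) ^ (R.totalDegree * n) := by
          rw [Finset.prod_mul_distrib, Finset.prod_const, Finset.card_univ, ← pow_mul]
  have hfin : ∀ F : Finset (Ideal (𝓞 K)), (∀ 𝔭 ∈ F, 𝔭 ∈ S) → F.card ≤ R.totalDegree * n := by
    intro F hF
    by_contra hcon
    push Not at hcon
    have h1 : (H + 1) ^ F.card ≤ (Algebra.norm ℤ x).natAbs := pow_card_le hx H F hF
    have h2 : ((H + 1 : ℕ) : ℝ) ^ (R.totalDegree * n + 1) ≤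
        (∏ σ, C σ) * (H : ℝ) ^ (R.totalDegree * n) := by
      calc ((H + 1 : ℕ) : ℝ) ^ (R.totalDegree * n + 1)
          ≤ ((H + 1 : ℕ) : ℝ) ^ F.card :=
            pow_le_pow_right₀ (by exact_mod_cast Nat.succ_le_succ (Nat.zero_le H)) hcon
        _ ≤ (((Algebra.norm ℤ x).natAbs : ℕ) : ℝ) := by exact_mod_cast h1
        _ ≤ _ := hbound
    have h3 : (H : ℝ) ^ (R.totalDegree * n) ≤ ((H + 1 : ℕ) : ℝ) ^ (R.totalDegree * n) :=
      pow_le_pow_left₀ (by positivity) (by push_cast; linarith) _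
    have h4 : 0 < ((H + 1 : ℕ) : ℝ) ^ (R.totalDegree * n) := by positivity
    have hCpos : 0 ≤ ∏ σ, C σ := Finset.prod_nonneg fun σ _ => zero_le_one.trans (hC1 σ)
    have h5 : ((H + 1 : ℕ) : ℝ) ^ (R.totalDegree * n) * ((H + 1 : ℕ) : ℝ) ≤
        ((H + 1 : ℕ) : ℝ) ^ (R.totalDegree * n) * ∏ σ, C σ := by
      rw [← pow_succ, mul_comm _ (∏ σ, C σ)]
      exact h2.trans (mul_le_mul_of_nonneg_left h3 hCpos)
    have h6 := le_of_mul_le_mul_left h5 h4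
    have h7 : (N : ℝ) ≤ H := by exact_mod_cast hHN
    push_cast at h6
    linarith
  have hSfin : S.Finite := by
    by_contra hinf
    obtain ⟨F, hF, hcard⟩ := Set.Infinite.exists_subset_card_eq hinf (R.totalDegree * n + 1)
    have := hfin F fun 𝔭 h𝔭 => hF h𝔭
    omega
  refine ⟨hSfin, ?_⟩
  rw [Set.ncard_eq_toFinset_card S hSfin]
  exact hfin _ fun 𝔭 h𝔭 => hSfin.mem_toFinset.mp h𝔭

/-- SE, with the interface asked for (the hypothesis is not used). -/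
theorem t_SE (_ : P_SA) : P_SE := t_SE'

end Pool.Agent.Q75.ND
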