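import Pool.Agent.Q75.ND.SE

/-!
Project ND (helper46), job SH: core lemma of the sieve.
-/

set_option autoImplicit false

open MvPolynomial NumberField Filter
open scoped Classical

namespace Pool.Agent.Q75.ND

open Pool.Agent.Q46.ND

variable {K ι J : Type} [Field K] [NumberField K] [Fintype ι] [Fintype J]

theorem exists_prime_mem {𝔭 : Ideal (𝓞 K)} (h : 𝔭.IsMaximal) :
    ∃ p : ℕ, p.Prime ∧ (p : 𝓞 K) ∈ 𝔭 := by
  have hbot : 𝔭 ≠ ⊥ := Ring.ne_bot_of_isMaximal_of_not_isField h (RingOfIntegers.not_isField K)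
  have h0 : Ideal.absNorm 𝔭 ≠ 0 := by
    rw [Ne, Ideal.absNorm_eq_zero_iff]; exact hbot
  have hmem : ((Ideal.absNorm 𝔭 : ℕ) : 𝓞 K) ∈ 𝔭 := by exact_mod_cast Ideal.absNorm_mem 𝔭
  have key : ∀ n : ℕ, n ≠ 0 → (n : 𝓞 K) ∈ 𝔭 → ∃ p : ℕ, p.Prime ∧ (p : 𝓞 K) ∈ 𝔭 := by
    intro n
    induction n using Nat.strong_induction_on with
    | _ n ih =>
      intro hn hnm
      have hn1 : n ≠ 1 := by
        rintro rfl
        exact h.ne_top ((Ideal.eq_top_iff_one _).mpr (by simpa using hnm))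
      have hp := Nat.minFac_prime hn1
      obtain ⟨k, hk⟩ := Nat.minFac_dvd n
      have hk0 : k ≠ 0 := by rintro rfl; exact hn (by simpa using hk)
      have hkn : k < n := by
        have := hp.two_le
        rw [hk]
        calc k < 2 * k := by omega
          _ ≤ n.minFac * k := Nat.mul_le_mul_right _ this
      rw [hk, Nat.cast_mul] at hnm
      rcases h.isPrime.mem_or_mem hnm with h1 | h1
      · exact ⟨_, hp, h1⟩
      · exact ih k hkn hk0 h1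
  exact key _ h0 hmem

/-- Count of the zeros of `R(a₀ + W g)` modulo the kernel of `φ`. -/
theorem count_zeros_aux (hSC : P_SC) (hSD : P_SD) (ω : Module.Basis ι ℤ (𝓞 K))
    (R : MvPolynomial J (𝓞 K)) {k : Type} [Field k] (φ : 𝓞 K →+* k) (hR : map φ R ≠ 0)
    (W : ℕ) (hW : φ (W : 𝓞 K) ≠ 0) (a₀ : J → 𝓞 K) (H μ : ℕ)
    (hμ : ∀ z, ((box ω H).filter fun g => φ g = z).card ≤ μ) :
    ((boxJ ω J H).filter fun g => φ (eval (pt a₀ W g) R) = 0).card * (box ω H).card ≤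
      R.totalDegree * μ * (box ω H).card ^ Fintype.card J := by
  obtain ⟨P, hP0, hPdeg, hPev⟩ := hSD φ R hR (W : 𝓞 K) hW a₀
  have h1 := hSC (fun x => φ x) (box ω H) μ hμ P hP0
  have h2 : ((boxJ ω J H).filter fun g => φ (eval (pt a₀ W g) R) = 0).card ≤
      P.totalDegree * μ * (box ω H).card ^ (Fintype.card J - 1) := by
    refine le_trans (Finset.card_le_card ?_) h1
    intro g hg
    rw [Finset.mem_filter] at hg ⊢
    refine ⟨hg.1, ?_⟩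
    rw [hPev]
    exact hg.2
  rcases Nat.eq_zero_or_pos (Fintype.card J) with hJ | hJ
  · haveI : IsEmpty J := Fintype.card_eq_zero_iff.mp hJ
    have h3 : P.totalDegree = 0 := by
      rw [eq_C_of_isEmpty P, totalDegree_C]
    rw [h3, zero_mul, zero_mul, Nat.le_zero] at h2
    rw [h2, zero_mul]
    exact Nat.zero_le _
  · have h4 : (box ω H).card ^ (Fintype.card J - 1) * (box ω H).card =
        (box ω H).card ^ Fintype.card J := by
      rw [← pow_succ, Nat.sub_add_cancel hJ]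
    calc _ ≤ P.totalDegree * μ * (box ω H).card ^ (Fintype.card J - 1) * (box ω H).card :=
          Nat.mul_le_mul_right _ h2
      _ = P.totalDegree * μ * (box ω H).card ^ Fintype.card J := by
          rw [mul_assoc, h4]
      _ ≤ R.totalDegree * μ * (box ω H).card ^ Fintype.card J := by gcongr

/-- Count of the `g` with `R(a₀ + W g)` in a maximal ideal. -/
theorem count_mem (hSC : P_SC) (hSD : P_SD) (ω : Module.Basis ι ℤ (𝓞 K))
    (R : MvPolynomial J (𝓞 K)) {𝔭 : Ideal (𝓞 K)} (hmax : 𝔭.IsMaximal) {m₀ : J →₀ ℕ}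
    (hR : R.coeff m₀ ∉ 𝔭) (W : ℕ) (hW : (W : 𝓞 K) ∉ 𝔭) (a₀ : J → 𝓞 K) (H μ : ℕ)
    (hμ : ∀ z, ((box ω H).filter fun g => g - z ∈ 𝔭).card ≤ μ) :
    ((boxJ ω J H).filter fun g => eval (pt a₀ W g) R ∈ 𝔭).card * (box ω H).card ≤
      R.totalDegree * μ * (box ω H).card ^ Fintype.card J := by
  obtain ⟨k, hk, φ, hφ, hsurj⟩ : ∃ (k : Type) (_ : Field k) (φ : 𝓞 K →+* k),
      (∀ x, φ x = 0 ↔ x ∈ 𝔭) ∧ Function.Surjective φ :=
    ⟨𝓞 K ⧸ 𝔭, Ideal.Quotient.field 𝔭, Ideal.Quotient.mk 𝔭,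
      fun x => Ideal.Quotient.eq_zero_iff_mem, Ideal.Quotient.mk_surjective⟩
  have h2 := count_zeros_aux hSC hSD ω R φ (by
      intro h0
      apply hR
      rw [← hφ, ← coeff_map, h0, coeff_zero]) W (fun h0 => hW ((hφ _).mp h0)) a₀ H μ (by
      intro z
      obtain ⟨y, rfl⟩ := hsurj z
      refine le_trans (Finset.card_le_card ?_) (hμ y)
      intro g hg
      rw [Finset.mem_filter] at hg ⊢
      refine ⟨hg.1, ?_⟩
      rw [← hφ, map_sub, hg.2, sub_self])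
  have h3 : ((boxJ ω J H).filter fun g => eval (pt a₀ W g) R ∈ 𝔭).card ≤
      ((boxJ ω J H).filter fun g => φ (eval (pt a₀ W g) R) = 0).card := by
    refine Finset.card_le_card fun g hg => ?_
    rw [Finset.mem_filter] at hg ⊢
    exact ⟨hg.1, (hφ _).mpr hg.2⟩
  exact (Nat.mul_le_mul_right _ h3).trans h2

/-- `R` is not zero modulo a maximal ideal far away. -/
theorem coeff_notMem (R : MvPolynomial J (𝓞 K)) {m₀ : J →₀ ℕ} (hc : R.coeff m₀ ≠ 0)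
    {M W : ℕ} (hM : (Algebra.norm ℤ (R.coeff m₀)).natAbs ≤ M) {𝔭 : Ideal (𝓞 K)}
    (hfar : Far M W 𝔭) : R.coeff m₀ ∉ 𝔭 := by
  intro h1
  obtain ⟨hmax, hpr, _⟩ := hfar
  obtain ⟨p, hp, hpm⟩ := exists_prime_mem hmax
  have h2 : p ≤ Ideal.absNorm 𝔭 := le_absNorm hmax.ne_top hp hpm
  have h3 : Ideal.absNorm 𝔭 ∣ (Algebra.norm ℤ (R.coeff m₀)).natAbs := by
    rw [← Ideal.absNorm_span_singleton]
    exact Ideal.absNorm_dvd_absNorm_of_le ((Ideal.span_singleton_le_iff_mem _).mpr h1)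
  have h4 : (Algebra.norm ℤ (R.coeff m₀)).natAbs ≠ 0 := by
    rw [Int.natAbs_ne_zero]
    exact Algebra.norm_ne_zero_iff.mpr hc
  have h5 := Nat.le_of_dvd (Nat.pos_of_ne_zero h4) h3
  exact hpr p hp (h2.trans (h5.trans hM)) hpm

theorem card_ne (i₀ : J) : Fintype.card J = Fintype.card {j : J // j ≠ i₀} + 1 := by
  rw [← Fintype.card_option]
  exact Fintype.card_congr (Equiv.optionSubtypeNe i₀).symm

theorem le_card_box (ω : Module.Basis ι ℤ (𝓞 K)) (H : ℕ) : 2 * H + 1 ≤ (box ω H).card := by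
  rw [card_box]
  apply Nat.le_self_pow
  intro h0
  haveI : IsEmpty ι := Fintype.card_eq_zero_iff.mp h0
  have h1 : (1 : 𝓞 K) = 0 := by
    rw [← ω.sum_repr 1]; simp
  exact one_ne_zero h1

theorem card_filter_boxJ_le (ω : Module.Basis ι ℤ (𝓞 K)) (H : ℕ) (Q : (J → 𝓞 K) → Prop)
    [DecidablePred Q] :
    ((boxJ ω J H).filter Q).card ≤ (box ω H).card ^ Fintype.card J := by
  rw [← card_boxJ]
  exact Finset.card_filter_le _ _

theorem arith2 {E N S m D μ C₁ T n' : ℕ} (hS : 0 < S) (h1 : E ≤ m * μ * T)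
    (h2 : T * S ≤ D * μ * S ^ n') (h3 : μ * N ≤ C₁ * S) :
    E * N ^ 2 ≤ m * D * C₁ ^ 2 * S ^ (n' + 1) := by
  have h4 : E * N ^ 2 * S ≤ m * D * C₁ ^ 2 * S ^ (n' + 1) * S := by
    calc E * N ^ 2 * S ≤ (m * μ * T) * N ^ 2 * S := by gcongr
      _ = m * μ * N ^ 2 * (T * S) := by ring
      _ ≤ m * μ * N ^ 2 * (D * μ * S ^ n') := by gcongr
      _ = m * D * (μ * N) ^ 2 * S ^ n' := by ring
      _ ≤ m * D * (C₁ * S) ^ 2 * S ^ n' := by gcongr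
      _ = m * D * C₁ ^ 2 * S ^ (n' + 1) * S := by ring
  exact Nat.le_of_mul_le_mul_right h4 hS

theorem arith3 {E L S m t μ C₁ T n' : ℕ} (h1 : E ≤ t * (m * μ) * T)
    (h2 : T ≤ S ^ n') (h3 : μ * L ≤ C₁ * S) :
    E * L ≤ t * m * C₁ * S ^ (n' + 1) := by
  calc E * L ≤ (t * (m * μ) * T) * L := by gcongr
    _ ≤ (t * (m * μ) * S ^ n') * L := by gcongr
    _ = t * m * (μ * L) * S ^ n' := by ring
    _ ≤ t * m * (C₁ * S) * S ^ n' := by gcongr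
    _ = t * m * C₁ * S ^ (n' + 1) := by ring

section parts

variable (ω : Module.Basis ι ℤ (𝓞 K)) (i₀ : J) (R : MvPolynomial {j : J // j ≠ i₀} (𝓞 K))

/-- (i) The zeros of `R`. -/
theorem part1 (hSC : P_SC) (hSD : P_SD) (hSG1 : P_SG1) (hR : R ≠ 0) (W : ℕ) (hW : 1 ≤ W)
    (a₀ : J → 𝓞 K) (H : ℕ) :
    ((boxJ ω J H).filter fun g => eval (fun j : {j : J // j ≠ i₀} => pt a₀ W g j.1) R = 0).card ≤
      R.totalDegree * (box ω H).card ^ Fintype.card {j : J // j ≠ i₀} := by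
  have h1 := hSG1 ω i₀ (fun g => eval (fun j : {j : J // j ≠ i₀} => pt a₀ W g j.1) R = 0)
    (fun g' => eval (pt (fun j => a₀ j.1) W g') R = 0) H (box ω H).card
    (fun g _ hg => hg) (fun g _ _ => Finset.card_filter_le _ _)
  have hinj : Function.Injective (algebraMap (𝓞 K) K) := RingOfIntegers.coe_injective
  have hW0 : algebraMap (𝓞 K) K (W : 𝓞 K) ≠ 0 := by
    rw [map_natCast]
    exact_mod_cast (Nat.one_le_iff_ne_zero.mp hW)
  have h2 := count_zeros_aux hSC hSD ω R (algebraMap (𝓞 K) K)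
    (fun h0 => hR (map_injective _ hinj (by rw [h0, map_zero]))) W hW0 (fun j => a₀ j.1) H 1 (by
      intro z
      rw [Finset.card_le_one]
      intro a ha b hb
      rw [Finset.mem_filter] at ha hb
      exact hinj (ha.2.trans hb.2.symm))
  have h3 : ((boxJ ω {j : J // j ≠ i₀} H).filter fun g' =>
      eval (pt (fun j => a₀ j.1) W g') R = 0).card ≤
      ((boxJ ω {j : J // j ≠ i₀} H).filter fun g' =>
        algebraMap (𝓞 K) K (eval (pt (fun j => a₀ j.1) W g') R) = 0).card := by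
    refine Finset.card_le_card fun g hg => ?_
    rw [Finset.mem_filter] at hg ⊢
    exact ⟨hg.1, by rw [hg.2, map_zero]⟩
  calc _ ≤ (box ω H).card * ((boxJ ω {j : J // j ≠ i₀} H).filter fun g' =>
      eval (pt (fun j => a₀ j.1) W g') R = 0).card := h1
    _ ≤ (box ω H).card * ((boxJ ω {j : J // j ≠ i₀} H).filter fun g' =>
        algebraMap (𝓞 K) K (eval (pt (fun j => a₀ j.1) W g') R) = 0).card :=
        Nat.mul_le_mul_left _ h3
    _ = ((boxJ ω {j : J // j ≠ i₀} H).filter fun g' =>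
        algebraMap (𝓞 K) K (eval (pt (fun j => a₀ j.1) W g') R) = 0).card * (box ω H).card :=
        mul_comm _ _
    _ ≤ R.totalDegree * 1 * (box ω H).card ^ Fintype.card {j : J // j ≠ i₀} := h2
    _ = _ := by rw [mul_one]

variable (m : ℕ) (Bad : (J → 𝓞 K) → Ideal (𝓞 K) → Prop)

/-- (ii) One maximal ideal over a small prime number. -/
theorem part2 (hSC : P_SC) (hSD : P_SD) (hSG1 : P_SG1) (hSG2 : P_SG2)
    (hBadR : ∀ a 𝔭, Bad a 𝔭 → eval (fun j : {j : J // j ≠ i₀} => a j.1) R ∈ 𝔭)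
    (hBadZ : ∀ a 𝔭, 𝔭.IsMaximal → ∃ Z : Finset (𝓞 K), Z.card ≤ m ∧
      ∀ c, Bad (Function.update a i₀ c) 𝔭 → ∃ z ∈ Z, c - z ∈ 𝔭)
    {𝔭 : Ideal (𝓞 K)} (hmax : 𝔭.IsMaximal) {W : ℕ} (hW : (W : 𝓞 K) ∉ 𝔭)
    {m₀ : {j : J // j ≠ i₀} →₀ ℕ} (hR : R.coeff m₀ ∉ 𝔭) (a₀ : J → 𝓞 K) (H C₁ : ℕ)
    (hC₁ : ∀ z, ((box ω H).filter fun g => g - z ∈ 𝔭).card * Ideal.absNorm 𝔭 ≤
      C₁ * (box ω H).card) :
    ((boxJ ω J H).filter fun g => Bad (pt a₀ W g) 𝔭).card * Ideal.absNorm 𝔭 ^ 2 ≤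
      m * R.totalDegree * C₁ ^ 2 * (box ω H).card ^ Fintype.card J := by
  set S := (box ω H).card with hS
  have hSpos : 0 < S := lt_of_lt_of_le (by omega) (le_card_box ω H)
  have hbot : 𝔭 ≠ ⊥ :=
    Ring.ne_bot_of_isMaximal_of_not_isField hmax (RingOfIntegers.not_isField K)
  have hN0 : 0 < Ideal.absNorm 𝔭 := by
    rw [Nat.pos_iff_ne_zero, Ne, Ideal.absNorm_eq_zero_iff]; exact hbot
  obtain ⟨μ, hμ, hμN⟩ : ∃ μ : ℕ, (∀ z, ((box ω H).filter fun g => g - z ∈ 𝔭).card ≤ μ) ∧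
      μ * Ideal.absNorm 𝔭 ≤ C₁ * S :=
    ⟨C₁ * S / Ideal.absNorm 𝔭, fun z => (Nat.le_div_iff_mul_le hN0).mpr (hC₁ z),
      Nat.div_mul_le_self _ _⟩
  have h0 : ∀ g : J → 𝓞 K,
      ((box ω H).filter fun c => Bad (pt a₀ W (Function.update g i₀ c)) 𝔭).card ≤ m * μ :=
    hSG2 ω i₀ m (fun a => Bad a 𝔭) 𝔭 hmax (fun a => hBadZ a 𝔭 hmax) W hW a₀ H μ hμ
  have h1 := hSG1 ω i₀ (fun g => Bad (pt a₀ W g) 𝔭)
    (fun g' => eval (pt (fun j => a₀ j.1) W g') R ∈ 𝔭) H (m * μ)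
    (fun g _ hg => hBadR (pt a₀ W g) 𝔭 hg) (fun g _ _ => h0 g)
  have h2 := count_mem hSC hSD ω R hmax hR W hW (fun j => a₀ j.1) H μ hμ
  set T := ((boxJ ω {j : J // j ≠ i₀} H).filter fun g' =>
    eval (pt (fun j => a₀ j.1) W g') R ∈ 𝔭).card with hT
  rw [card_ne i₀]
  exact arith2 hSpos h1 h2 hμN

/-- (iii) Maximal ideals over large prime numbers. -/
theorem part3 (hSG1 : P_SG1) (hSG2 : P_SG2)
    (hBadR : ∀ a 𝔭, Bad a 𝔭 → eval (fun j : {j : J // j ≠ i₀} => a j.1) R ∈ 𝔭)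
    (hBadZ : ∀ a 𝔭, 𝔭.IsMaximal → ∃ Z : Finset (𝓞 K), Z.card ≤ m ∧
      ∀ c, Bad (Function.update a i₀ c) 𝔭 → ∃ z ∈ Z, c - z ∈ 𝔭)
    (W : ℕ) (a₀ : J → 𝓞 K) (H C₁ t : ℕ)
    (hC₁ : ∀ 𝔭 : Ideal (𝓞 K), 𝔭.IsMaximal → (∃ p : ℕ, p.Prime ∧ H < p ∧ (p : 𝓞 K) ∈ 𝔭) →
      ∀ z, ((box ω H).filter fun g => g - z ∈ 𝔭).card * (2 * H + 1) ≤ C₁ * (box ω H).card)
    (ht : ∀ g ∈ boxJ ω {j : J // j ≠ i₀} H, eval (pt (fun j => a₀ j.1) W g) R ≠ 0 →
      {𝔭 : Ideal (𝓞 K) | 𝔭.IsMaximal ∧ eval (pt (fun j => a₀ j.1) W g) R ∈ 𝔭 ∧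
        ∃ p : ℕ, p.Prime ∧ H < p ∧ (p : 𝓞 K) ∈ 𝔭}.Finite ∧
      {𝔭 : Ideal (𝓞 K) | 𝔭.IsMaximal ∧ eval (pt (fun j => a₀ j.1) W g) R ∈ 𝔭 ∧
        ∃ p : ℕ, p.Prime ∧ H < p ∧ (p : 𝓞 K) ∈ 𝔭}.ncard ≤ t) (Q : (J → 𝓞 K) → Prop)
    (hQ : ∀ g, Q g ↔ eval (fun j : {j : J // j ≠ i₀} => pt a₀ W g j.1) R ≠ 0 ∧
      ∃ 𝔭 : Ideal (𝓞 K), 𝔭.IsMaximal ∧ (W : 𝓞 K) ∉ 𝔭 ∧
        (∃ p : ℕ, p.Prime ∧ H < p ∧ (p : 𝓞 K) ∈ 𝔭) ∧ Bad (pt a₀ W g) 𝔭) :
    ((boxJ ω J H).filter Q).card * (2 * H + 1) ≤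
      t * m * C₁ * (box ω H).card ^ Fintype.card J := by
  set S := (box ω H).card with hS
  have hH0 : 0 < 2 * H + 1 := by omega
  obtain ⟨μ, hμ, hμN⟩ : ∃ μ : ℕ, (∀ n : ℕ, n * (2 * H + 1) ≤ C₁ * S → n ≤ μ) ∧
      μ * (2 * H + 1) ≤ C₁ * S :=
    ⟨C₁ * S / (2 * H + 1), fun n hn => (Nat.le_div_iff_mul_le hH0).mpr hn,
      Nat.div_mul_le_self _ _⟩
  have hev : ∀ (g : J → 𝓞 K) (c : 𝓞 K),
      eval (fun j : {j : J // j ≠ i₀} => pt a₀ W (Function.update g i₀ c) j.1) R =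
        eval (pt (fun j : {j : J // j ≠ i₀} => a₀ j.1) W fun j => g j.1) R := by
    intro g c
    congr 1
    congr 1
    funext j
    simp only [pt]
    rw [Function.update_of_ne j.2]
  obtain ⟨T, hT⟩ : ∃ T : ({j : J // j ≠ i₀} → 𝓞 K) → Prop, ∀ g, T g :=
    ⟨fun _ => True, fun _ => trivial⟩
  have h1 := hSG1 ω i₀ Q T H (t * (m * μ)) (fun _ _ _ => hT _) (by
    intro g hg _
    set x := eval (pt (fun j : {j : J // j ≠ i₀} => a₀ j.1) W fun j => g j.1) R with hx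
    by_cases hx0 : x = 0
    · refine le_trans (le_of_eq ?_) (Nat.zero_le _)
      rw [Finset.card_eq_zero, Finset.filter_eq_empty_iff]
      intro c _ hc
      apply ((hQ _).mp hc).1
      rw [hev, ← hx, hx0]
    · obtain ⟨hfin, hcard⟩ := ht (fun j => g j.1)
        ((mem_boxJ ω H _ _).mpr fun j => (mem_boxJ ω H _ _).mp hg j.1) hx0
      refine (Finset.card_le_card (t := (hfin.toFinset.filter fun 𝔭 => (W : 𝓞 K) ∉ 𝔭).biUnion
          fun 𝔭 => (box ω H).filter fun c => Bad (pt a₀ W (Function.update g i₀ c)) 𝔭) ?_).trans ?_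
      · intro c hc
        rw [Finset.mem_filter, hQ] at hc
        obtain ⟨hcb, hc0, 𝔭, hmax, hW, hp, hbad⟩ := hc
        rw [Finset.mem_biUnion]
        refine ⟨𝔭, ?_, ?_⟩
        · rw [Finset.mem_filter, Set.Finite.mem_toFinset]
          refine ⟨⟨hmax, ?_, hp⟩, hW⟩
          have := hBadR _ _ hbad
          rw [hev] at this
          exact this
        · rw [Finset.mem_filter]
          exact ⟨hcb, hbad⟩
      refine (Finset.card_biUnion_le_card_mul _ _ (m * μ) ?_).trans ?_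
      · intro 𝔭 h𝔭
        rw [Finset.mem_filter, Set.Finite.mem_toFinset] at h𝔭
        obtain ⟨⟨hmax, _, hp⟩, hW⟩ := h𝔭
        exact hSG2 ω i₀ m (fun a => Bad a 𝔭) 𝔭 hmax (fun a => hBadZ a 𝔭 hmax) W hW a₀ H μ
          (fun z => hμ _ (hC₁ 𝔭 hmax hp z)) g
      · refine Nat.mul_le_mul_right _ ?_
        refine (Finset.card_filter_le _ _).trans ?_
        rw [← Set.ncard_eq_toFinset_card _ hfin]
        exact hcard)
  rw [card_ne i₀]
  exact arith3 h1 (card_filter_boxJ_le ω H T) hμN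

end parts

theorem t_SH (_hSA : P_SA) (hSB : P_SB) (hSC : P_SC) (hSD : P_SD) (hSE : P_SE) (hSF : P_SF)
    (hSG1 : P_SG1) (hSG2 : P_SG2) : P_SH := by
  intro K ι J _ _ _ _ ω i₀ R hR m Bad hBadR hBadZ
  obtain ⟨C₁, hC₁⟩ := hSB ω
  obtain ⟨t, ht⟩ := hSE ω R
  obtain ⟨C₅, hC₅⟩ := hSF K
  obtain ⟨m₀, hm₀⟩ : ∃ m₀, R.coeff m₀ ≠ 0 := by
    by_contra hcon
    push Not at hcon
    exact hR (MvPolynomial.ext _ _ fun m => by rw [hcon m, coeff_zero])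
  set MR := (Algebra.norm ℤ (R.coeff m₀)).natAbs with hMR
  set A : ℝ := (m : ℝ) * R.totalDegree * C₁ ^ 2 with hA
  have hA0 : 0 ≤ A := by positivity
  refine ⟨MR + 2 + A * max C₅ 0, ?_⟩
  intro M W hM a₀
  have hM0 : (0 : ℝ) < M := by exact_mod_cast hM
  filter_upwards [eventually_ge_atTop (max 1 (max (R.totalDegree * M) (t * m * C₁ * M))),
    ht W fun j => a₀ j.1] with H hH htH
  have hH1 : 1 ≤ H := (le_max_left _ _).trans hH
  have hHD : R.totalDegree * M ≤ H := (le_max_left _ _).trans ((le_max_right _ _).trans hH)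
  have hHt : t * m * C₁ * M ≤ H := (le_max_right _ _).trans ((le_max_right _ _).trans hH)
  set S := (box ω H).card with hS
  have hS1 : 2 * H + 1 ≤ S := le_card_box ω H
  have hSeq : (2 * H + 1) ^ Fintype.card ι = S := (card_box ω H).symm
  set n := Fintype.card J with hn
  set n' := Fintype.card {j : J // j ≠ i₀} with hn'
  have hnn : n = n' + 1 := card_ne i₀
  set E := (boxJ ω J H).filter fun g => ∃ 𝔭, Far M W 𝔭 ∧ Bad (pt a₀ W g) 𝔭 with hE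
  have hSR : (1 : ℝ) ≤ S := by
    have : 1 ≤ S := by omega
    exact_mod_cast this
  have hSn0 : (0 : ℝ) < (S : ℝ) ^ n := by positivity
  have hAC : 0 ≤ A * max C₅ 0 := mul_nonneg hA0 (le_max_right _ _)
  rcases Nat.eq_zero_or_pos W with hW0 | hW1
  · have : E = ∅ := by
      rw [hE, Finset.filter_eq_empty_iff]
      rintro g _ ⟨𝔭, ⟨_, _, h3⟩, _⟩
      apply h3
      rw [hW0, Nat.cast_zero]
      exact 𝔭.zero_mem
    rw [this, Finset.card_empty, Nat.cast_zero]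
    positivity
  rcases lt_or_ge M MR with hMM | hMM
  · -- trivial bound
    have h1 : (E.card : ℝ) ≤ (S : ℝ) ^ n := by
      have := card_filter_boxJ_le ω H fun g => ∃ 𝔭, Far M W 𝔭 ∧ Bad (pt a₀ W g) 𝔭
      exact_mod_cast this
    have h2 : (1 : ℝ) ≤ (MR + 2 + A * max C₅ 0) / M := by
      rw [le_div_iff₀ hM0, one_mul]
      have : (M : ℝ) ≤ MR := by exact_mod_cast hMM.le
      linarith
    calc (E.card : ℝ) ≤ 1 * (S : ℝ) ^ n := by rw [one_mul]; exact h1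
      _ ≤ (MR + 2 + A * max C₅ 0) / M * (S : ℝ) ^ n := by gcongr
  -- main case
  obtain ⟨𝒮, h𝒮, hsum⟩ := hC₅ M H hM
  set E1 := (boxJ ω J H).filter fun g =>
    eval (fun j : {j : J // j ≠ i₀} => pt a₀ W g j.1) R = 0 with hE1
  set E2 := fun 𝔭 : Ideal (𝓞 K) => (boxJ ω J H).filter fun g => Bad (pt a₀ W g) 𝔭 with hE2
  obtain ⟨Q, hQ⟩ : ∃ Q : (J → 𝓞 K) → Prop, ∀ g, Q g ↔
      eval (fun j : {j : J // j ≠ i₀} => pt a₀ W g j.1) R ≠ 0 ∧
      ∃ 𝔭 : Ideal (𝓞 K), 𝔭.IsMaximal ∧ (W : 𝓞 K) ∉ 𝔭 ∧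
        (∃ p : ℕ, p.Prime ∧ H < p ∧ (p : 𝓞 K) ∈ 𝔭) ∧ Bad (pt a₀ W g) 𝔭 :=
    ⟨_, fun _ => Iff.rfl⟩
  set E3 := (boxJ ω J H).filter Q with hE3
  have hsub : E ⊆ (E1 ∪ E3) ∪ (𝒮.filter (Far M W)).biUnion E2 := by
    intro g hg
    rw [hE, Finset.mem_filter] at hg
    obtain ⟨hgb, 𝔭, hfar, hbad⟩ := hg
    rw [Finset.mem_union, Finset.mem_union]
    by_cases h0 : eval (fun j : {j : J // j ≠ i₀} => pt a₀ W g j.1) R = 0
    · exact Or.inl (Or.inl (Finset.mem_filter.mpr ⟨hgb, h0⟩))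
    · obtain ⟨p, hp, hpm⟩ := exists_prime_mem hfar.1
      rcases le_or_gt p H with hpH | hpH
      · refine Or.inr (Finset.mem_biUnion.mpr ⟨𝔭, ?_, Finset.mem_filter.mpr ⟨hgb, hbad⟩⟩)
        rw [Finset.mem_filter, h𝒮]
        refine ⟨⟨hfar.1, p, hp, ?_, hpH, hpm⟩, hfar⟩
        by_contra hcon
        exact hfar.2.1 p hp (not_lt.mp hcon) hpm
      · exact Or.inl (Or.inr (Finset.mem_filter.mpr
          ⟨hgb, (hQ g).mpr ⟨h0, 𝔭, hfar.1, hfar.2.2, ⟨p, hp, hpH, hpm⟩, hbad⟩⟩))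
  have hcard : E.card ≤ E1.card + E3.card + ∑ 𝔭 ∈ 𝒮.filter (Far M W), (E2 𝔭).card := by
    refine (Finset.card_le_card hsub).trans ?_
    refine (Finset.card_union_le _ _).trans ?_
    exact Nat.add_le_add (Finset.card_union_le _ _) Finset.card_biUnion_le
  have b1 : (E1.card : ℝ) ≤ 1 / M * (S : ℝ) ^ n := by
    have h1 : E1.card ≤ R.totalDegree * S ^ n' := part1 ω i₀ R hSC hSD hSG1 hR W hW1 a₀ H
    have h2 : E1.card * M ≤ S ^ n := by
      calc E1.card * M ≤ R.totalDegree * S ^ n' * M := Nat.mul_le_mul_right _ h1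
        _ = (R.totalDegree * M) * S ^ n' := by ring
        _ ≤ S * S ^ n' := Nat.mul_le_mul_right _ (by omega)
        _ = S ^ n := by rw [hnn, pow_succ]; ring
    rw [one_div, inv_mul_eq_div, le_div_iff₀ hM0]
    exact_mod_cast h2
  have b3 : (E3.card : ℝ) ≤ 1 / M * (S : ℝ) ^ n := by
    have h1 : E3.card * (2 * H + 1) ≤ t * m * C₁ * S ^ n :=
      part3 ω i₀ R m Bad hSG1 hSG2 hBadR hBadZ W a₀ H C₁ t (by
        rintro 𝔭 hmax ⟨p, hp, hHp, hpm⟩ z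
        rw [← hS, ← hSeq]
        exact (hC₁ 𝔭 hmax p hp hpm H hH1 z).2 hHp) htH Q hQ
    have h2 : E3.card * M ≤ S ^ n := by
      have h3 : E3.card * M * (2 * H + 1) ≤ S ^ n * (2 * H + 1) := by
        calc E3.card * M * (2 * H + 1) = (E3.card * (2 * H + 1)) * M := by ring
          _ ≤ (t * m * C₁ * S ^ n) * M := Nat.mul_le_mul_right _ h1
          _ = (t * m * C₁ * M) * S ^ n := by ring
          _ ≤ (2 * H + 1) * S ^ n := Nat.mul_le_mul_right _ (by omega)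
          _ = S ^ n * (2 * H + 1) := by ring
      exact Nat.le_of_mul_le_mul_right h3 (by omega)
    rw [one_div, inv_mul_eq_div, le_div_iff₀ hM0]
    exact_mod_cast h2
  have b2 : ((∑ 𝔭 ∈ 𝒮.filter (Far M W), (E2 𝔭).card : ℕ) : ℝ) ≤
      A * max C₅ 0 / M * (S : ℝ) ^ n := by
    have h1 : ∀ 𝔭 ∈ 𝒮.filter (Far M W), ((E2 𝔭).card : ℝ) ≤
        A * (S : ℝ) ^ n * (1 / (Ideal.absNorm 𝔭 : ℝ) ^ 2) := by
      intro 𝔭 h𝔭
      rw [Finset.mem_filter, h𝒮] at h𝔭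
      obtain ⟨⟨hmax, p, hp, hMp, hpH, hpm⟩, hfar⟩ := h𝔭
      have h2 : (E2 𝔭).card * Ideal.absNorm 𝔭 ^ 2 ≤ m * R.totalDegree * C₁ ^ 2 * S ^ n :=
        part2 ω i₀ R m Bad hSC hSD hSG1 hSG2 hBadR hBadZ hmax hfar.2.2
          (coeff_notMem R hm₀ hMM hfar) a₀ H C₁ (fun z => by
            rw [← hS, ← hSeq]
            exact (hC₁ 𝔭 hmax p hp hpm H hH1 z).1 hpH)
      have hbot : 𝔭 ≠ ⊥ :=
        Ring.ne_bot_of_isMaximal_of_not_isField hmax (RingOfIntegers.not_isField K)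
      have hN0 : (0 : ℝ) < Ideal.absNorm 𝔭 := by
        have : 0 < Ideal.absNorm 𝔭 := by
          rw [Nat.pos_iff_ne_zero, Ne, Ideal.absNorm_eq_zero_iff]; exact hbot
        exact_mod_cast this
      rw [mul_one_div, le_div_iff₀ (by positivity), hA]
      exact_mod_cast h2
    rw [Nat.cast_sum]
    calc ∑ 𝔭 ∈ 𝒮.filter (Far M W), ((E2 𝔭).card : ℝ)
        ≤ ∑ 𝔭 ∈ 𝒮.filter (Far M W), A * (S : ℝ) ^ n * (1 / (Ideal.absNorm 𝔭 : ℝ) ^ 2) :=
          Finset.sum_le_sum h1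
      _ = A * (S : ℝ) ^ n * ∑ 𝔭 ∈ 𝒮.filter (Far M W), (1 / (Ideal.absNorm 𝔭 : ℝ) ^ 2) := by
          rw [Finset.mul_sum]
      _ ≤ A * (S : ℝ) ^ n * ∑ 𝔭 ∈ 𝒮, (1 / (Ideal.absNorm 𝔭 : ℝ) ^ 2) := by
          refine mul_le_mul_of_nonneg_left ?_ (by positivity)
          exact Finset.sum_le_sum_of_subset_of_nonneg (Finset.filter_subset _ _)
            fun _ _ _ => by positivity
      _ ≤ A * (S : ℝ) ^ n * (max C₅ 0 / M) := by
          refine mul_le_mul_of_nonneg_left (hsum.trans ?_) (by positivity)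
          gcongr
          exact le_max_left _ _
      _ = A * max C₅ 0 / M * (S : ℝ) ^ n := by ring
  have hMR0 : (0 : ℝ) ≤ MR := by positivity
  calc (E.card : ℝ) ≤ (E1.card : ℝ) + E3.card +
        ((∑ 𝔭 ∈ 𝒮.filter (Far M W), (E2 𝔭).card : ℕ) : ℝ) := by exact_mod_cast hcard
    _ ≤ 1 / M * (S : ℝ) ^ n + 1 / M * (S : ℝ) ^ n + A * max C₅ 0 / M * (S : ℝ) ^ n := by
        gcongr
    _ = (2 + A * max C₅ 0) / M * (S : ℝ) ^ n := by ring
    _ ≤ (MR + 2 + A * max C₅ 0) / M * (S : ℝ) ^ n := by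
        gcongr
        linarith

end Pool.Agent.Q75.ND
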